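import Pool.Agent.W78.EC.Defs4

/-! Project EC (helper78): lower bound for the logarithmic weight of all pairs. -/

set_option autoImplicit false

namespace Pool.Agent.W410.EC

open Finset Filter
open Pool.Agent.W78.GA Pool.Agent.W78.EC

lemma hD : (0 : ℤ) ^ 2 < 4 * 1 := by norm_num

open scoped Classical in
lemma edge_sub (Y : ℝ) (hY : 2 ≤ Y) (e : Gi × Gi) (he : e ∈ edge 0 1 Y) :
    e ∈ (dedge 0 1 Y).filter (fun e => 0 < ip e.1 e.2) := by
  unfold edge at he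
  rw [mem_filter] at he
  obtain ⟨h1, h2, h3⟩ := he
  rw [mem_filter]
  unfold dedge
  refine ⟨mem_filter.2 ⟨h1, h2⟩, ?_⟩
  rw [mem_product, mem_pball hD, mem_pball hD] at h1
  obtain ⟨⟨_, h5⟩, ⟨_, h7⟩⟩ := h1
  have ha := nm_add hD e.1 e.2
  have hb := ip_dt hD e.1 e.2
  rw [h2] at hb ha
  by_contra hc
  push Not at hc
  have ha' : (nm (e.1 + e.2) : ℝ) = nm e.1 + 2 * (ip e.1 e.2 : ℝ) + nm e.2 := by
    have : (nm (e.1 + e.2) : ℤ) = nm e.1 + 2 * ip e.1 e.2 + nm e.2 := by linarith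
    exact_mod_cast this
  have hb' : (nm e.1 : ℤ) * nm e.2 = ip e.1 e.2 ^ 2 + 1 := by linarith
  have h8 : (0 : ℝ) < nm e.1 + 2 * (ip e.1 e.2 : ℝ) := by
    rw [ha'] at h3
    linarith
  have h9 : (0 : ℝ) < nm e.2 + 2 * (ip e.1 e.2 : ℝ) := by
    rw [ha'] at h3
    linarith
  have h8' : (0 : ℤ) < nm e.1 + 2 * ip e.1 e.2 := by exact_mod_cast h8
  have h9' : (0 : ℤ) < nm e.2 + 2 * ip e.1 e.2 := by exact_mod_cast h9
  have h10 : ip e.1 e.2 = 0 := by
    by_contra hne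
    have h11 : ip e.1 e.2 ≤ -1 := by omega
    nlinarith
  rw [h10] at hb'
  have h12 : (nm e.1 : ℤ) * nm e.2 = 1 := by linarith
  have h13 : (nm e.1) * nm e.2 = 1 := by exact_mod_cast h12
  have h14 : nm e.1 = 1 := Nat.eq_one_of_mul_eq_one_right h13
  have h15 : nm e.2 = 1 := Nat.eq_one_of_mul_eq_one_left h13
  rw [ha', h14, h15, h10] at h3
  norm_num at h3
  linarith

lemma mem_SP {N : ℕ} {p : ℕ × ℕ} : p ∈ SP N ↔ ((1 ≤ p.1 ∧ p.1 ≤ N) ∧ (1 ≤ p.2 ∧ p.2 ≤ N)) ∧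
    ∃ n : ℕ, p.1 * p.2 = n ^ 2 + 1 := by
  classical
  unfold SP
  rw [mem_filter, mem_product, mem_Icc, mem_Icc]

lemma one_mem (N : ℕ) (hN : 1 ≤ N) : ((1, 1) : ℕ × ℕ) ∈ SP N := by
  rw [mem_SP]
  exact ⟨⟨⟨le_rfl, hN⟩, ⟨le_rfl, hN⟩⟩, 0, by norm_num⟩

lemma card_SP (h1 : S_ECNT) (h2 : S_CORR) : ∃ c : ℝ, 0 < c ∧ ∀ N : ℕ, 1 ≤ N →
    c * N ≤ ((SP N).card : ℝ) := by
  obtain ⟨c, C, Y₀, hc, h⟩ := h1
  obtain ⟨N₁, hN₁⟩ := exists_nat_ge (max Y₀ 2)
  have hN₁2 : (2 : ℝ) ≤ N₁ := (le_max_right _ _).trans hN₁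
  have hN₁Y : Y₀ ≤ N₁ := (le_max_left _ _).trans hN₁
  refine ⟨min (c / 4) (1 / N₁), by positivity, ?_⟩
  intro N hN
  by_cases hNN : N₁ ≤ N
  · have hNN' : (N₁ : ℝ) ≤ N := by exact_mod_cast hNN
    have h3 := (h N (hN₁Y.trans hNN')).1
    have h4 := h2 N (fun _ _ => 1) (by linarith)
    rw [Nat.floor_natCast] at h4
    simp only [sum_const, nsmul_eq_mul, mul_one] at h4
    have h5 : ((edge 0 1 (N : ℝ)).card : ℝ) ≤
        (((dedge 0 1 (N : ℝ)).filter (fun e => 0 < ip e.1 e.2)).card : ℝ) := by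
      exact_mod_cast card_le_card (fun e he => by
        have := edge_sub N (hN₁2.trans hNN') e he
        convert this)
    have h6 : (((SP N).filter (fun p => p ≠ (1, 1))).card : ℝ) ≤ ((SP N).card : ℝ) := by
      exact_mod_cast card_le_card (filter_subset _ _)
    have h7 : c * N ≤ 4 * ((SP N).card : ℝ) := by
      refine h3.trans (h5.trans ?_)
      refine le_trans (le_of_eq ?_) (mul_le_mul_of_nonneg_left h6 (by norm_num : (0 : ℝ) ≤ 4))
      convert h4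
    have h8 : min (c / 4) (1 / (N₁ : ℝ)) * N ≤ c / 4 * N :=
      mul_le_mul_of_nonneg_right (min_le_left _ _) (by positivity)
    linarith
  · push Not at hNN
    have hNN' : (N : ℝ) ≤ N₁ := by exact_mod_cast hNN.le
    have h8 : min (c / 4) (1 / (N₁ : ℝ)) * N ≤ 1 / (N₁ : ℝ) * N :=
      mul_le_mul_of_nonneg_right (min_le_right _ _) (by positivity)
    have h9 : 1 / (N₁ : ℝ) * N ≤ 1 := by
      rw [one_div_mul_eq_div, div_le_one (by linarith)]
      exact hNN'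
    have h10 : (1 : ℝ) ≤ ((SP N).card : ℝ) := by
      have : 0 < (SP N).card := card_pos.2 ⟨_, one_mem N hN⟩
      exact_mod_cast this
    linarith

lemma SP_mono (N : ℕ) : SP N ⊆ SP (N + 1) := by
  intro p hp
  rw [mem_SP] at *
  exact ⟨⟨⟨hp.1.1.1, by omega⟩, ⟨hp.1.2.1, by omega⟩⟩, hp.2⟩

lemma step (N : ℕ) : ∑ p ∈ SP (N + 1), 1 / (max p.1 p.2 : ℝ) =
    ∑ p ∈ SP N, 1 / (max p.1 p.2 : ℝ) +
      (((SP (N + 1)).card : ℝ) - (SP N).card) / ((N : ℝ) + 1) := by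
  classical
  rw [← sum_sdiff (SP_mono N), add_comm]
  congr 1
  have h1 : ∀ p ∈ SP (N + 1) \ SP N, 1 / (max (p.1 : ℝ) (p.2 : ℝ)) = 1 / ((N : ℝ) + 1) := by
    intro p hp
    rw [Finset.mem_sdiff, mem_SP, mem_SP] at hp
    obtain ⟨⟨⟨⟨h1, h2⟩, ⟨h3, h4⟩⟩, h5⟩, h6⟩ := hp
    have h7 : max p.1 p.2 = N + 1 := by
      by_contra hne
      apply h6
      refine ⟨⟨⟨h1, ?_⟩, ⟨h3, ?_⟩⟩, h5⟩
      · rcases max_cases p.1 p.2 with h | h <;> omega
      · rcases max_cases p.1 p.2 with h | h <;> omega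
    have h8 : max (p.1 : ℝ) (p.2 : ℝ) = ((max p.1 p.2 : ℕ) : ℝ) := by push_cast; rfl
    rw [h8, h7]
    push_cast
    rfl
  rw [sum_congr rfl h1, sum_const, nsmul_eq_mul, card_sdiff_of_subset (SP_mono N),
    Nat.cast_sub (card_le_card (SP_mono N))]
  ring

theorem slow (h1 : S_ECNT) (h2 : S_CORR) : S_SLOW := by
  obtain ⟨c, hc, h⟩ := card_SP h1 h2
  refine ⟨c, hc, ?_⟩
  have key : ∀ N : ℕ, 1 ≤ N → ((SP N).card : ℝ) / N + c * (Real.log (N + 1) - Real.log 2) ≤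
      ∑ p ∈ SP N, 1 / (max p.1 p.2 : ℝ) := by
    intro N hN
    induction N, hN using Nat.le_induction with
    | base =>
      have h3 : ∀ p ∈ SP 1, 1 / (max (p.1 : ℝ) (p.2 : ℝ)) = 1 := by
        intro p hp
        rw [mem_SP] at hp
        have e1 : p.1 = 1 := by omega
        have e2 : p.2 = 1 := by omega
        rw [e1, e2]
        norm_num
      rw [sum_congr rfl h3, sum_const, nsmul_eq_mul]
      norm_num
    | succ N hN ih =>
      rw [step N]
      have hN' : (0 : ℝ) < N := by exact_mod_cast hN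
      have h4 := h N hN
      have h5 : Real.log ((N : ℝ) + 1 + 1) - Real.log ((N : ℝ) + 1) ≤ 1 / ((N : ℝ) + 1) := by
        rw [← Real.log_div (by positivity) (by positivity)]
        have h6 := Real.log_le_sub_one_of_pos (x := ((N : ℝ) + 1 + 1) / ((N : ℝ) + 1))
          (by positivity)
        refine h6.trans (le_of_eq ?_)
        field_simp
        ring
      have h7 : c * (Real.log ((N : ℝ) + 1 + 1) - Real.log ((N : ℝ) + 1)) ≤
          c * (1 / ((N : ℝ) + 1)) := mul_le_mul_of_nonneg_left h5 hc.le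
      have h8 : c * (1 / ((N : ℝ) + 1)) ≤
          ((SP N).card : ℝ) / N - ((SP N).card : ℝ) / ((N : ℝ) + 1) := by
        have e : ((SP N).card : ℝ) / N - ((SP N).card : ℝ) / ((N : ℝ) + 1) =
            ((SP N).card : ℝ) / N * (1 / ((N : ℝ) + 1)) := by
          field_simp
          ring
        rw [e]
        apply mul_le_mul_of_nonneg_right _ (by positivity)
        rw [le_div_iff₀ hN']
        exact h4
      have h9 : (((SP (N + 1)).card : ℝ) - (SP N).card) / ((N : ℝ) + 1) =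
          ((SP (N + 1)).card : ℝ) / ((N : ℝ) + 1) - ((SP N).card : ℝ) / ((N : ℝ) + 1) := by
        rw [sub_div]
      push_cast
      rw [h9]
      linarith [ih]
  intro N hN
  have h3 := key N (by omega)
  have h4 := h N (by omega)
  have hN' : (0 : ℝ) < N := by
    have : 0 < N := by omega
    exact_mod_cast this
  have h5 : c ≤ ((SP N).card : ℝ) / N := by
    rw [le_div_iff₀ hN']
    exact h4
  have h6 : Real.log N ≤ Real.log (N + 1) := Real.log_le_log hN' (by linarith)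
  have h7 : Real.log 2 ≤ 1 := by
    have := Real.log_two_lt_d9
    linarith
  nlinarith

end Pool.Agent.W410.EC
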